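import Pool.Agent.Work.MP_5da384_an.Main

/-!
# MP_5da384_an: a non-circular table with a convex caustic of constant tangency arc length

The plane is `ℂ`. All definitions used in the statement are in
`Pool/Agent/Work/MP_5da384_an/Defs.lean`.
-/

set_option autoImplicit false

open Set

namespace Pool.Agent.Results.MP_5da384_an.ConstantArc

open Pool.Agent.Work.MP_5da384_an

/-- There are a table `Γ = frontier Ω`, not a circle, and a convex caustic `γ = frontier K` of it,
parametrized by `g`, such that for every `P ∈ Γ` the tangent lines from `P` to `γ` touch `γ` exactly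
at the two points `g s`, `g t`, and the arc `g '' Icc s t` of `γ` between them (the one facing `P`)
has the same length `len` for all `P`. -/
theorem result :
    ∃ (Ω K : Set ℂ) (g : ℝ → ℂ) (ℓ : ℝ),
      IsTable Ω ∧ (∀ (O : ℂ) (R : ℝ), frontier Ω ≠ Metric.sphere O R) ∧
      IsConvexCurve K g ℓ ∧ IsConvexCaustic Ω K ∧
      ∃ len : ℝ, ∀ P ∈ frontier Ω, ∃ s t : ℝ, s < t ∧ t < s + ℓ ∧
        tangencyPoints (frontier K) P = {g s, g t} ∧
        g '' Icc s t ⊆ convexHull ℝ {P, g s, g t} ∧
        eVariationOn g (Icc s t) = ENNReal.ofReal len :=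
  q1_holds

end Pool.Agent.Results.MP_5da384_an.ConstantArc
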